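import Mathlib

set_option autoImplicit false

namespace Pool.Agent.Results.MP_a5fab4_co.Counter

def nb (k i : ℕ) : Bool := !((i - 15) / 2 == k / 3 || (i - 15) / 2 == (k / 3 + 1) % 5)

def adjB (a b : Fin 25) : Bool :=
  a != b && (if a.val < 15 then (if b.val < 15 then true else nb a.val b.val)
    else (if b.val < 15 then nb b.val a.val else false))

def G : SimpleGraph (Fin 25) where
  Adj a b := adjB a b = true
  symm := ⟨by intro a b; revert a b; decide +kernel⟩
  loopless := ⟨by intro a; revert a; decide +kernel⟩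

instance : DecidableRel G.Adj := fun a b => inferInstanceAs (Decidable (adjB a b = true))

def indOf (k : Fin 25) : Finset (Fin 25) := Finset.univ.filter (fun v => ¬ G.Adj k v)
def cliOf (i : Fin 25) : Finset (Fin 25) := Finset.univ.filter (fun v => v = i ∨ G.Adj i v)
def bigI : Finset (Fin 25) := Finset.univ.filter (fun v => ¬ v.val < 15)
def bigK : Finset (Fin 25) := Finset.univ.filter (fun v => v.val < 15)

theorem ind1 : ∀ k : Fin 25, k.val < 15 → (indOf k).card = 5 ∧
    ∀ a ∈ indOf k, ∀ b ∈ indOf k, ¬ G.Adj a b := by decide +kernel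
theorem ind2 : bigI.card = 10 ∧ ∀ a ∈ bigI, ∀ b ∈ bigI, ¬ G.Adj a b := by decide +kernel
theorem cli1 : ∀ i : Fin 25, ¬ i.val < 15 → (cliOf i).card = 10 ∧
    ∀ a ∈ cliOf i, ∀ b ∈ cliOf i, a ≠ b → G.Adj a b := by decide +kernel
theorem cli2 : bigK.card = 15 ∧ ∀ a ∈ bigK, ∀ b ∈ bigK, a ≠ b → G.Adj a b := by decide +kernel

theorem result :
    ¬ (∀ l m : ℕ, 0 < l → 0 < m → m / 2 ≤ l → l ≤ m →
      IsGreatest
        {n : ℕ | ∀ H : SimpleGraph (Fin n),
          (∃ s : Finset (Fin n),
            Maximal (fun t : Finset (Fin n) => H.IsIndepSet (t : Set (Fin n))) s ∧ s.card ≤ l) ∨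
          (∃ s : Finset (Fin n),
            Maximal (fun t : Finset (Fin n) => H.IsClique (t : Set (Fin n))) s ∧ s.card ≤ m)}
        (2 * (l + m) - 1)) := by
  intro h
  have h1 := (h 4 9 (by norm_num) (by norm_num) (by norm_num) (by norm_num)).1
  rcases h1 G with ⟨s, hs, hc⟩ | ⟨s, hs, hc⟩
  · by_cases hk : ∃ k ∈ s, k.val < 15
    · obtain ⟨k, hks, hk⟩ := hk
      obtain ⟨h5, hind⟩ := ind1 k hk
      have hsub : s ≤ indOf k := by
        intro v hv
        simp only [indOf, Finset.mem_filter, Finset.mem_univ, true_and]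
        intro hadj
        exact hs.prop hks hv hadj.ne hadj
      have := Finset.card_le_card (hs.le_of_ge (fun a ha b hb _ => hind a ha b hb) hsub)
      omega
    · have hsub : s ≤ bigI := by
        intro v hv
        simp only [bigI, Finset.mem_filter, Finset.mem_univ, true_and]
        exact fun h => hk ⟨v, hv, h⟩
      have := Finset.card_le_card (hs.le_of_ge (fun a ha b hb _ => ind2.2 a ha b hb) hsub)
      have := ind2.1
      omega
  · by_cases hk : ∃ i ∈ s, ¬ i.val < 15
    · obtain ⟨i, his, hi⟩ := hk
      obtain ⟨h5, hcl⟩ := cli1 i hi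
      have hsub : s ≤ cliOf i := by
        intro v hv
        simp only [cliOf, Finset.mem_filter, Finset.mem_univ, true_and]
        by_cases hvi : v = i
        · exact Or.inl hvi
        · exact Or.inr (hs.prop his hv (Ne.symm hvi))
      have := Finset.card_le_card (hs.le_of_ge (fun a ha b hb hab => hcl a ha b hb hab) hsub)
      omega
    · have hsub : s ≤ bigK := by
        intro v hv
        simp only [bigK, Finset.mem_filter, Finset.mem_univ, true_and]
        by_contra h
        exact hk ⟨v, hv, h⟩
      have := Finset.card_le_card (hs.le_of_ge (fun a ha b hb hab => cli2.2 a ha b hb hab) hsub)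
      have := cli2.1
      omega

end Pool.Agent.Results.MP_a5fab4_co.Counter
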